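import Pool.Agent.Lib.JM_H15.Basic
import Mathlib.FieldTheory.IntermediateField.Adjoin.Algebra

/-!
# TANK W, M2: good elements and the transfer lemma (TANKW3_h86, section 2)
-/

set_option autoImplicit false

namespace Pool.Agent.TWM2

open Pool.Agent.H15JM (RVal)

universe u

variable {k Ω : Type u} [Field k] [Field Ω] [Algebra k Ω]

/-- `y` is `P`-good in `L`: no `p`-th power of `L` approximates `y` better than the elements of
`P` do. -/
def Good (p : ℕ) (v : RVal Ω) (P L : IntermediateField k Ω) (y : Ω) : Prop :=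
  y ∈ L ∧ y ∉ P ∧ ∀ g ∈ L, y ≠ g ^ p ∧ ∃ a ∈ P, v (y - g ^ p) ≤ v (y - a)

theorem v_sub_comm (v : RVal Ω) (x y : Ω) : v (x - y) = v (y - x) := by
  by_cases h : x - y = 0
  · have h1 : y - x = 0 := by rw [← neg_sub, h, neg_zero]
    rw [h, h1]
  · rw [← v.map_neg _ h, neg_sub]

theorem v_add_of_lt (v : RVal Ω) {x y : Ω} (hx : x ≠ 0) (hy : y ≠ 0) (h : v x < v y) :
    v (x + y) = v x := (v.add_of_lt hx hy h).2

/-- The distance to `a` does not change when `y` moves by less. -/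
theorem v_sub_eq (v : RVal Ω) {y t a : Ω} (hy : y ≠ a) (ht : t = y ∨ v (y - a) < v (y - t)) :
    t ≠ a ∧ v (t - a) = v (y - a) := by
  rcases ht with rfl | ht
  · exact ⟨hy, rfl⟩
  · by_cases h1 : y = t
    · subst h1
      exact ⟨hy, rfl⟩
    have h2 : t - a = (y - a) + (t - y) := by ring
    have h3 := v.add_of_lt (sub_ne_zero.2 hy) (sub_ne_zero.2 (Ne.symm h1))
      (by rwa [v_sub_comm v t y])
    rw [← h2] at h3
    exact ⟨sub_ne_zero.1 h3.1, h3.2⟩

/-- **Transfer**, one step: `L ^ p ≤ K ≤ L`. -/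
theorem transfer_step (p : ℕ) [Fact p.Prime] [CharP Ω p] (v : RVal Ω)
    (P K L : IntermediateField k Ω) (hKL : K ≤ L) (hLK : ∀ g ∈ L, g ^ p ∈ K)
    (hP : ∀ a, a ^ p ∈ P → a ∈ P) {y : Ω} (hy : Good p v P L y) :
    ∃ t, Good p v P K t := by
  obtain ⟨hyL, hyP, hgood⟩ := hy
  have hp0 : (0 : ℝ) < p := by exact_mod_cast (Fact.out : p.Prime).pos
  have hya : ∀ a ∈ P, y ≠ a := fun a ha h => hyP (h ▸ ha)
  by_cases hc : ∃ t ∈ K, t = y ∨ ∀ a ∈ P, v (y - a) < v (y - t)
  · obtain ⟨t, htK, ht⟩ := hc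
    have hta : ∀ a ∈ P, t ≠ a ∧ v (t - a) = v (y - a) := fun a ha =>
      v_sub_eq v (hya a ha) (ht.imp id fun h => h a ha)
    refine ⟨t, htK, fun h => (hta t h).1 rfl, fun g hg => ?_⟩
    obtain ⟨h1, a, ha, h2⟩ := hgood g (hKL hg)
    have h3 := v_sub_eq v (y := y) (t := t) (a := g ^ p) h1
      (ht.imp id fun h => lt_of_le_of_lt h2 (h a ha))
    exact ⟨h3.1, a, ha, by rw [h3.2, (hta a ha).2]; exact h2⟩
  · push Not at hc
    refine ⟨y ^ p, hLK y hyL, fun h => hyP (hP y h), fun g hg => ?_⟩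
    obtain ⟨h1, a, ha, h2⟩ := hc g hg
    refine ⟨fun h => h1 ?_, a ^ p, pow_mem ha p, ?_⟩
    · exact (frobenius_inj Ω p h).symm
    · rw [← sub_pow_char, ← sub_pow_char, v.map_pow (sub_ne_zero.2 (Ne.symm h1)),
        v.map_pow (sub_ne_zero.2 (hya a ha))]
      exact mul_le_mul_of_nonneg_left h2 hp0.le

/-- The compositum of `K` and the `p ^ i`-th powers of `L`. -/
def powL (p : ℕ) (K L : IntermediateField k Ω) (i : ℕ) : IntermediateField k Ω :=
  K ⊔ IntermediateField.adjoin k ((fun g : Ω => g ^ p ^ i) '' (L : Set Ω))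

theorem powL_zero (p : ℕ) {K L : IntermediateField k Ω} (h : K ≤ L) : powL p K L 0 = L := by
  unfold powL
  apply le_antisymm
  · refine sup_le h (IntermediateField.adjoin_le_iff.2 ?_)
    rintro _ ⟨g, hg, rfl⟩
    simpa using hg
  · refine le_trans ?_ le_sup_right
    intro g hg
    exact IntermediateField.subset_adjoin _ _ ⟨g, hg, by simp⟩

theorem powL_succ_le (p : ℕ) (K L : IntermediateField k Ω) (i : ℕ) :
    powL p K L (i + 1) ≤ powL p K L i := by
  unfold powL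
  refine sup_le le_sup_left (IntermediateField.adjoin_le_iff.2 ?_)
  rintro _ ⟨g, hg, rfl⟩
  have h0 : IntermediateField.adjoin k ((fun g : Ω => g ^ p ^ i) '' (L : Set Ω)) ≤
    K ⊔ IntermediateField.adjoin k ((fun g : Ω => g ^ p ^ i) '' (L : Set Ω)) := le_sup_right
  have h1 := h0 (IntermediateField.subset_adjoin _ _ ⟨g, hg, rfl⟩)
  have h2 : g ^ p ^ (i + 1) = (g ^ p ^ i) ^ p := by rw [← pow_mul, ← pow_succ]
  show g ^ p ^ (i + 1) ∈ _
  rw [h2]
  exact pow_mem h1 p

theorem powL_pow_mem (p : ℕ) [Fact p.Prime] [CharP Ω p] (K L : IntermediateField k Ω) (i : ℕ)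
    {g : Ω} (hg : g ∈ powL p K L i) : g ^ p ∈ powL p K L (i + 1) := by
  have hc : ∀ x : k, algebraMap k Ω x ∈ (powL p K L (i + 1)).toSubfield.comap
      (frobenius Ω p) := by
    intro x
    rw [Subfield.mem_comap, frobenius_def, ← map_pow]
    exact (powL p K L (i + 1)).algebraMap_mem _
  have hle : powL p K L i ≤
      Subfield.toIntermediateField ((powL p K L (i + 1)).toSubfield.comap (frobenius Ω p)) hc := by
    unfold powL
    refine sup_le ?_ (IntermediateField.adjoin_le_iff.2 ?_)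
    · intro a ha
      have h0 : K ≤ powL p K L (i + 1) := le_sup_left
      exact h0 (pow_mem ha p)
    · rintro _ ⟨b, hb, rfl⟩
      have h0 : IntermediateField.adjoin k ((fun g : Ω => g ^ p ^ (i + 1)) '' (L : Set Ω)) ≤
        powL p K L (i + 1) := le_sup_right
      have h1 := h0 (IntermediateField.subset_adjoin _ _ ⟨b, hb, rfl⟩)
      have h2 : b ^ p ^ (i + 1) = (b ^ p ^ i) ^ p := by rw [← pow_mul, ← pow_succ]
      simp only [h2] at h1
      exact h1
  exact hle hg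

theorem le_powL (p : ℕ) (K L : IntermediateField k Ω) (i : ℕ) : K ≤ powL p K L i := le_sup_left

theorem powL_eq (p : ℕ) (K L : IntermediateField k Ω) (i : ℕ) (h : ∀ g ∈ L, g ^ p ^ i ∈ K) :
    powL p K L i = K := by
  unfold powL
  apply le_antisymm
  · refine sup_le le_rfl (IntermediateField.adjoin_le_iff.2 ?_)
    rintro _ ⟨g, hg, rfl⟩
    exact h g hg
  · exact le_sup_left

/-- **Transfer**: if `L` is purely inseparable over `K` of bounded exponent and has a `P`-good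
element then so has `K`. -/
theorem transfer (p : ℕ) [Fact p.Prime] [CharP Ω p] (v : RVal Ω)
    (P K L : IntermediateField k Ω) (hKL : K ≤ L) (e : ℕ) (hLK : ∀ g ∈ L, g ^ p ^ e ∈ K)
    (hP : ∀ a, a ^ p ∈ P → a ∈ P) {y : Ω} (hy : Good p v P L y) :
    ∃ t, Good p v P K t := by
  have key : ∀ i : ℕ, ∃ t, Good p v P (powL p K L i) t := by
    intro i
    induction i with
    | zero =>
      rw [powL_zero p hKL]
      exact ⟨y, hy⟩
    | succ i ih =>
      obtain ⟨t, ht⟩ := ih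
      exact transfer_step p v P _ _ (powL_succ_le p K L i)
        (fun g hg => powL_pow_mem p K L i hg) hP ht
  have h1 := key e
  rwa [powL_eq p K L e hLK] at h1

/-- Transfer upwards, one step: `L ^ p ≤ K ≤ L`, `P` perfect. -/
theorem transfer_up_step (p : ℕ) [Fact p.Prime] [CharP Ω p] (v : RVal Ω)
    (P K L : IntermediateField k Ω) (hKL : K ≤ L) (hLK : ∀ g ∈ L, g ^ p ∈ K)
    (hP : ∀ a ∈ P, ∃ b ∈ P, b ^ p = a) {y : Ω} (hy : Good p v P K y) :
    ∃ t, Good p v P L t := by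
  obtain ⟨hyK, hyP, hgood⟩ := hy
  have hp0 : (0 : ℝ) < p := by exact_mod_cast (Fact.out : p.Prime).pos
  have hya : ∀ a ∈ P, y ≠ a := fun a ha h => hyP (h ▸ ha)
  by_cases hc : ∃ h ∈ L, h ^ p = y ∨ ∀ a ∈ P, v (y - a) < v (y - h ^ p)
  · obtain ⟨h, hL, hh⟩ := hc
    have hta : ∀ a ∈ P, h ^ p ≠ a ∧ v (h ^ p - a) = v (y - a) := fun a ha =>
      v_sub_eq v (hya a ha) (hh.imp id fun h0 => h0 a ha)
    refine ⟨h, hL, fun h0 => (hta _ (pow_mem h0 p)).1 rfl, fun g hg => ?_⟩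
    obtain ⟨h1, a, ha, h2⟩ := hgood (g ^ p) (hLK g hg)
    obtain ⟨b, hb, rfl⟩ := hP a ha
    have h3 := v_sub_eq v (y := y) (t := h ^ p) (a := (g ^ p) ^ p) h1
      (hh.imp id fun h0 => lt_of_le_of_lt h2 (h0 _ ha))
    have h4 : h ≠ g ^ p := fun h0 => h3.1 (by rw [h0])
    refine ⟨h4, b, hb, ?_⟩
    have h5 : v ((h - g ^ p) ^ p) ≤ v ((h - b) ^ p) := by
      rw [sub_pow_char, sub_pow_char, h3.2, (hta _ ha).2]
      exact h2
    have h6 : h ≠ b := fun h0 => (hta _ ha).1 (by rw [h0])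
    rw [v.map_pow (sub_ne_zero.2 h4), v.map_pow (sub_ne_zero.2 h6)] at h5
    exact le_of_mul_le_mul_left h5 hp0
  · push Not at hc
    refine ⟨y, hKL hyK, hyP, fun g hg => ?_⟩
    obtain ⟨h1, a, ha, h2⟩ := hc g hg
    exact ⟨Ne.symm h1, a, ha, h2⟩

/-- **Transfer upwards**: if `K` has a `P`-good element and `L ^ (p ^ e) ≤ K ≤ L` then `L` has one,
`P` perfect. -/
theorem transfer_up (p : ℕ) [Fact p.Prime] [CharP Ω p] (v : RVal Ω)
    (P K L : IntermediateField k Ω) (hKL : K ≤ L) (e : ℕ) (hLK : ∀ g ∈ L, g ^ p ^ e ∈ K)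
    (hP : ∀ a ∈ P, ∃ b ∈ P, b ^ p = a) {y : Ω} (hy : Good p v P K y) :
    ∃ t, Good p v P L t := by
  have key : ∀ i : ℕ, ∀ j : ℕ, i + j = e → ∃ t, Good p v P (powL p K L j) t := by
    intro i
    induction i with
    | zero =>
      intro j hj
      rw [zero_add] at hj
      rw [hj, powL_eq p K L e hLK]
      exact ⟨y, hy⟩
    | succ i ih =>
      intro j hj
      obtain ⟨t, ht⟩ := ih (j + 1) (by omega)
      exact transfer_up_step p v P _ _ (powL_succ_le p K L j)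
        (fun g hg => powL_pow_mem p K L j hg) hP ht
  have h1 := key e 0 rfl
  rwa [powL_zero p hKL] at h1

end Pool.Agent.TWM2
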